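import Pool.Agent.R688.QI.Main

/-!
# Bass' formula for C-quasi-injective dimension (MP_a1000c_al, Q1)

For every commutative Noetherian local ring `R`, every semidualizing module `C` and every finitely
generated module `M` of finite `C`-quasi-injective dimension, this dimension is `depth R`.
-/

set_option autoImplicit false

open R688.QI

universe u

namespace Pool.Agent.Results.MP_a1000c_al.BassFormula

/-- Bass' formula for C-quasi-injective dimension. -/
theorem result : ∀ (R : Type u) [CommRing R] [IsLocalRing R] [IsNoetherianRing R]
    (C : Type u) [AddCommGroup C] [Module R C], IsSemidualizing R C →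
    ∀ (M : Type u) [AddCommGroup M] [Module R M] [Module.Finite R M],
    qid R C M < ⊤ → qid R C M = depthR R := by
  intro R _ _ _ C _ _ hC M _ _ _ h
  exact bass R C hC M h

end Pool.Agent.Results.MP_a1000c_al.BassFormula
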